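import Pool.Agent.R223.RW.Fin
import Pool.Agent.Y282.RB.K2
import Pool.Agent.Y282.RB.K3
import Pool.Agent.NH61.FS.AllA

/-!
# The exact norm on all functions with `N` angular frequencies, for large `p`

For all `n, N ≥ 1` and all `p ≥ p0(n, N)` the norm of `T ^ n` in `L^p` on the functions with at most
`N` angular frequencies (arbitrary integers, the extremal frequency `2 n` included) is exactly the
constant `(1/q)_n / (1/p)_n` of the question.

The component of frequency `2 n` is the only one on which `T ^ n` is not bounded uniformly in `p`.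
Its chain of `n` first order operators satisfies the pointwise inequality with a factor to spare, so
that the defect `K^p ‖f‖^p - ‖T^n f‖^p` controls an envelope of `|T^n f|^p`; the cross terms with
the other components, given by explicit kernels of uniform `L^1` norm, are absorbed by this defect.
-/

set_option autoImplicit false

open MeasureTheory

namespace Pool.Agent.Results.MP_dd244f_an.FiniteFrequencySets

/-- The `n`-th power of the Beurling transform: the Fourier multiplier with symbol
`(conj ξ / ξ) ^ n`, in the literal form of the frozen statement. -/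
noncomputable def T (n : ℕ) (f : ℂ → ℂ) (z : ℂ) : ℂ :=
  ∫ ξ : ℂ,
    Complex.exp (2 * (Real.pi : ℂ) * Complex.I * (((z.re * ξ.re + z.im * ξ.im : ℝ)) : ℂ)) *
      ((starRingEnd ℂ ξ / ξ) ^ n *
        ∫ x : ℂ, Complex.exp (-(2 * (Real.pi : ℂ) * Complex.I *
          (((x.re * ξ.re + x.im * ξ.im : ℝ)) : ℂ))) * f x)

/-- The constant `(1/q)_n / (1/p)_n` of the question. -/
noncomputable def K (n : ℕ) (p : ℝ) : ℝ :=
  (ascPochhammer ℝ n).eval (1 - 1 / p) / (ascPochhammer ℝ n).eval (1 / p)

/-- The set of admissible constants for `T ^ n` in `L^p` on the sums of at most `N` Schwartz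
functions of one angular frequency each (`f k (r e^{iθ}) = e^{i k θ} φ_k(r)`, `k ∈ S`, any set `S`
of at most `N` integers). -/
def Admissible (n N : ℕ) (p : ℝ) : Set ℝ :=
  {C | 0 ≤ C ∧ ∀ (S : Finset ℤ) (f : ℤ → SchwartzMap ℂ ℂ), S.card ≤ N →
    (∀ k ∈ S, ∀ a z : ℂ, ‖a‖ = 1 → f k (a * z) = a ^ k * f k z) →
    eLpNorm (T n fun z => ∑ k ∈ S, f k z) (ENNReal.ofReal p) (volume : Measure ℂ)
      ≤ ENNReal.ofReal C *
        eLpNorm (fun z => ∑ k ∈ S, f k z) (ENNReal.ofReal p) (volume : Measure ℂ)}

/-- For all `n, N ≥ 1` there is `p0` such that for every real `p ≥ p0` the least admissible constant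
for `T ^ n` in `L^p` on the functions with at most `N` angular frequencies (arbitrary integers) is
the constant `(1/q)_n / (1/p)_n` of the question. -/
theorem result (n N : ℕ) (hn : 1 ≤ n) (hN : 1 ≤ N) :
    ∃ p0 : ℝ, 2 ≤ p0 ∧ ∀ p : ℝ, p0 ≤ p → IsLeast (Admissible n N p) (K n p) := by
  obtain ⟨p0, hp0, h⟩ := Pool.NH61.FS.AllA.fin n N hn
  refine ⟨p0, by linarith, fun p hp => ?_⟩
  have hp2 : 2 ≤ p := by linarith
  have hT : ∀ n f, T n f = Y282.RB.Tn n f := fun n f => rfl
  have hK : K n p = Y282.RB.Cn p n := (Y282.RB.K3.main n p (by linarith)).symm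
  have hpos : 0 < Y282.RB.Cn p n := R223.RW.Fin.cpos n p hp2
  refine ⟨⟨hK ▸ hpos.le, fun S f hS hf => ?_⟩, ?_⟩
  · rw [hK]
    exact h p hp S f hS hf
  · rintro C ⟨hC0, hCf⟩
    by_contra hlt
    rw [not_le, hK] at hlt
    obtain ⟨g, hg, hs, hlt'⟩ := R223.RW.Fin.sharp n p C hn (by linarith) hC0 hlt
    obtain ⟨f, hf1, hf2, _⟩ := Y282.RB.K2.main n g hg hs
    have h5 := hCf {(2 * n : ℤ)} (fun _ => f) (by simpa using hN) (fun k hk a z ha => by
      rw [Finset.mem_singleton.1 hk, hf2 a z ha]
      norm_cast)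
    simp only [Finset.sum_singleton] at h5
    rw [hT, hf1] at h5
    exact absurd h5 (not_le.2 hlt')

end Pool.Agent.Results.MP_dd244f_an.FiniteFrequencySets
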