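import Pool.Agent.R223.RW.Fin
import Pool.Agent.Y282.RB.K2
import Pool.Agent.Y282.RB.K3
import Pool.Agent.NH61.FS.AllB

/-!
# The exact norm in `L^p` (radial) of `L^2` (angular), for large `p`

For all `n ≥ 1` and all `p ≥ p0(n)` the norm of `T ^ n`, on all Schwartz functions, in the mixed
norm `L^p` in the radius of `L^2` in the angle is exactly the constant `(1/q)_n / (1/p)_n` of the
question.

The component of frequency `2 n` satisfies the sharp inequality with a defect which controls an
envelope of the image; the components of all other frequencies are given by explicit kernels, which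
together are bounded in `L^p(ℓ^2)` with constant `O(p ^ (1/2))`, and the cross terms are absorbed by
the defect.
-/

set_option autoImplicit false

open MeasureTheory

namespace Pool.Agent.Results.MP_dd244f_an.MixedNorm

/-- The `n`-th power of the Beurling transform: the Fourier multiplier with symbol
`(conj ξ / ξ) ^ n`, in the literal form of the frozen statement. -/
noncomputable def T (n : ℕ) (f : ℂ → ℂ) (z : ℂ) : ℂ :=
  ∫ ξ : ℂ,
    Complex.exp (2 * (Real.pi : ℂ) * Complex.I * (((z.re * ξ.re + z.im * ξ.im : ℝ)) : ℂ)) *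
      ((starRingEnd ℂ ξ / ξ) ^ n *
        ∫ x : ℂ, Complex.exp (-(2 * (Real.pi : ℂ) * Complex.I *
          (((x.re * ξ.re + x.im * ξ.im : ℝ)) : ℂ))) * f x)

/-- The constant `(1/q)_n / (1/p)_n` of the question. -/
noncomputable def K (n : ℕ) (p : ℝ) : ℝ :=
  (ascPochhammer ℝ n).eval (1 - 1 / p) / (ascPochhammer ℝ n).eval (1 / p)

/-- The mixed norm: the norm of `L^p` in the radius (measure `r dr`) of the norm of `L^2` in the
angle. -/
noncomputable def mixedNorm (p : ℝ) (g : ℂ → ℂ) : ENNReal :=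
  (∫⁻ r in Set.Ioi (0 : ℝ),
    (∫⁻ θ in Set.Ioc (0 : ℝ) (2 * Real.pi),
      ‖g (r * Complex.exp (θ * Complex.I))‖ₑ ^ (2 : ℝ)) ^ (p / 2) *
      ENNReal.ofReal r) ^ (1 / p)

/-- The set of admissible constants for `T ^ n` in the mixed norm, on all Schwartz functions. -/
def Admissible (n : ℕ) (p : ℝ) : Set ℝ :=
  {C | 0 ≤ C ∧ ∀ f : SchwartzMap ℂ ℂ,
    mixedNorm p (T n f) ≤ ENNReal.ofReal C * mixedNorm p f}

/-- For every `n ≥ 1` there is `p0` such that for every real `p ≥ p0` the least admissible constant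
for `T ^ n` in the mixed norm (`L^p` radial, `L^2` angular), on all Schwartz functions, is the
constant `(1/q)_n / (1/p)_n` of the question. -/
theorem result (n : ℕ) (hn : 1 ≤ n) :
    ∃ p0 : ℝ, 2 ≤ p0 ∧ ∀ p : ℝ, p0 ≤ p → IsLeast (Admissible n p) (K n p) := by
  obtain ⟨p0, hp0, h⟩ := Pool.NH61.FS.AllB.mix n hn
  refine ⟨p0, by linarith, fun p hp => ?_⟩
  have hp2 : 2 ≤ p := by linarith
  have hp00 : 0 < p := by linarith
  have hT : ∀ n f, T n f = Y282.RB.Tn n f := fun n f => rfl
  have hK : K n p = Y282.RB.Cn p n := (Y282.RB.K3.main n p (by linarith)).symm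
  have hpos : 0 < Y282.RB.Cn p n := R223.RW.Fin.cpos n p hp2
  refine ⟨⟨hK ▸ hpos.le, fun f => ?_⟩, ?_⟩
  · rw [hK]
    exact h p hp f
  · rintro C ⟨hC0, hCf⟩
    by_contra hlt
    rw [not_le, hK] at hlt
    obtain ⟨g, hg, hs, hlt'⟩ := R223.RW.Fin.sharp n p C hn (by linarith) hC0 hlt
    obtain ⟨f, hf1, hf2, _⟩ := Y282.RB.K2.main n g hg hs
    have hft : ∀ a z : ℂ, ‖a‖ = 1 → f (a * z) = a ^ (2 * n : ℤ) * f z := fun a z ha => by
      rw [hf2 a z ha]
      norm_cast
    set c : ENNReal := ENNReal.ofReal ((2 * Real.pi) ^ (1 / 2 - 1 / p)) with hc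
    have hc0 : c ≠ 0 := by
      rw [hc]
      simp only [ne_eq, ENNReal.ofReal_eq_zero, not_le]
      exact Real.rpow_pos_of_pos (by positivity) _
    have hct : c ≠ ⊤ := ENNReal.ofReal_ne_top
    have e : ∀ (k : ℤ) (v : ℂ → ℂ), Continuous v →
        (∀ a z : ℂ, ‖a‖ = 1 → v (a * z) = a ^ k * v z) →
        mixedNorm p v = c * eLpNorm v (ENNReal.ofReal p) (volume : Measure ℂ) := by
      intro k v hv hvt
      have h1 := Pool.NH61.FS.Mx.main Unit (fun _ => k) p (fun _ => v)
        (fun _ _ _ => Subsingleton.elim _ _) hp2 (fun _ => hv) (fun _ => hvt)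
      have h2 : (fun z : ℂ => Real.sqrt (∑ _i : Unit, ‖v z‖ ^ 2)) = fun z => ‖v z‖ := by
        funext z
        rw [Finset.univ_unique, Finset.sum_singleton, Real.sqrt_sq (norm_nonneg _)]
      have h3 : (fun z : ℂ => ∑ _i : Unit, v z) = v := by
        funext z
        rw [Finset.univ_unique, Finset.sum_singleton]
      rw [h2, h3, eLpNorm_norm] at h1
      exact h1
    have h5 := hCf f
    rw [hT, e (2 * n) f f.continuous hft,
      e (2 * n - 2 * n) (Y282.RB.Tn n f) (R223.RD.Asm2.T_cont n f)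
        (R223.RD.TY.main n (2 * n) f hft), mul_left_comm] at h5
    have h6 := (ENNReal.mul_le_mul_iff_right hc0 hct).1 h5
    rw [hf1] at h6
    exact absurd h6 (not_le.2 hlt')

end Pool.Agent.Results.MP_dd244f_an.MixedNorm
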